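import Pool.Agent.helper33.CVX.Spec

set_option autoImplicit false

namespace Pool.Agent.CVX

open MvPolynomial

theorem TWH (hTWA : TWA_stmt) (hTWB : TWB_stmt) (hTWL : TWL_stmt) : TWH_stmt := by
  intro ι _ _ n J _ _ _ d hd N c hc hN
  rcases Nat.eq_zero_or_pos N with h0 | hpos
  · subst h0
    refine ⟨fun _ => 1, fun i => ⟨0, one_ne_zero⟩, fun _ => 1, ⟨Classical.arbitrary J, one_ne_zero⟩, fun a => a.elim0⟩
  · by_contra hcon
    push Not at hcon
    obtain ⟨hfin, c0, hc0, hlow⟩ := hTWL ι n J d hd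
    obtain ⟨T1, hT1⟩ := hTWA ι n J d hd N c hc (fun x hx l hl => hcon x hx l hl)
    obtain ⟨C, hC⟩ := hTWB (MvPolynomial (Vr n ⊕ J) ℂ) (fun T => AT n d T) hfin N
      (fun a => ∑ j, X (Sum.inr j) * rename Sum.inl (c j a)) T1 hT1
    obtain ⟨m, hm⟩ := exists_nat_gt ((C : ℝ) / c0)
    have h1 := hlow m
    have h2 : (Module.finrank ℂ (AT n d m) : ℝ) ≤ (C : ℝ) * ((m : ℝ) + 1) ^ (N - 1) := by
      have h := hC m
      have h' : ((Module.finrank ℂ (AT n d m) : ℕ) : ℝ) ≤ ((C * (m + 1) ^ (N - 1) : ℕ) : ℝ) := by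
        exact_mod_cast h
      push_cast at h'
      exact h'
    have hpow : ((m : ℝ) + 1) ^ N ≤ ((m : ℝ) + 1) ^ (∑ i, n i + Fintype.card J - 1) := by
      apply pow_le_pow_right₀
      · have : (0 : ℝ) ≤ m := Nat.cast_nonneg _
        linarith
      · omega
    have hN' : ((m : ℝ) + 1) ^ N = ((m : ℝ) + 1) ^ (N - 1) * ((m : ℝ) + 1) := by
      rw [← pow_succ]
      congr 1
      omega
    have hp : (0 : ℝ) < ((m : ℝ) + 1) ^ (N - 1) := by positivity
    have h3 : c0 * (((m : ℝ) + 1) ^ (N - 1) * ((m : ℝ) + 1)) ≤ (C : ℝ) * ((m : ℝ) + 1) ^ (N - 1) := by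
      rw [← hN']
      exact le_trans (mul_le_mul_of_nonneg_left hpow hc0.le) (le_trans h1 h2)
    have h4 : (C : ℝ) < (m : ℝ) * c0 := by
      rwa [div_lt_iff₀ hc0] at hm
    have h5 : c0 * ((m : ℝ) + 1) ≤ C := by
      by_contra hlt
      push Not at hlt
      have := mul_lt_mul_of_pos_right hlt hp
      linarith
    nlinarith

end Pool.Agent.CVX
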